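import Pool.Agent.J6H93.NG.Dat

/-! Certificate data (G10): table of patterns -/

set_option autoImplicit false

namespace Pool.Agent.J6H93.NG.G10

open Pool.Agent.J6H77.N18 (T)

def t0 : T := (.n (.n (.n (.n (.n .l 0x4410e3388a2184c11008018029 .l) 0x4410e338cc2284811006010029 .l) 0x330ca2284811006010027 (.n (.n .l 0xc821844020025 .l) 0x1204611008018045 .l)) 0x6414c4410e330ca2284811006010029 (.n (.n (.n .l 0x74150449103388a2184c1100801802a .l) 0x10c3288a1204611008018047 .l) 0x4390c338cc2284811006010028 (.n .l 0x1504390a3388a2184c11008018029 .l))) 0x10c328c82284811006010027 (.n (.n (.n (.n .l 0x212741524410a3388a2184c1100801802a .l) 0x44010023 .l) 0x5414c4390c338cc2284811006010029 (.n (.n .l 0x1 .l) 0x1904390c3388a2184c11008018029 .l)) 0x14e4410e330ca2284811006010029 (.n (.n (.n .l 0x21844018024 .l) 0x1505390e3308a1204611008018049 .l) 0x549504410e338cc228481100601002a (.n .l 0x4390a3388a2184c11008018028 .l))))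

/-- the table -/
def tab : T := t0

end Pool.Agent.J6H93.NG.G10
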